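import Pool.Agent.N290.RJ.Stm

/-!
# Project RJ, part C5 (helper134, after the case `d = 1` of helper123): Bergman integrals of bounded
functions are holomorphic
-/

set_option autoImplicit false

open Complex MeasureTheory Set Filter Topology
open scoped ENNReal

namespace Pool.Agent.N134.RJC5

open Pool.Agent.N290.RJ

variable {d : ℕ}

/-- the inner product with `w` as a continuous linear map -/
noncomputable def ipL (w : E d) : E d →L[ℂ] ℂ :=
  (starRingEnd ℂ w.1) • ContinuousLinearMap.fst ℂ ℂ (Fin d → ℂ) +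
    ∑ i, (starRingEnd ℂ (w.2 i)) •
      ((ContinuousLinearMap.proj i : (Fin d → ℂ) →L[ℂ] ℂ).comp
        (ContinuousLinearMap.snd ℂ ℂ (Fin d → ℂ)))

lemma ipL_apply (w z : E d) : ipL w z = ip z w := by
  unfold ipL ip
  simp only [add_apply, smul_apply, sum_apply,
    ContinuousLinearMap.coe_fst', ContinuousLinearMap.coe_snd', smul_eq_mul,
    ContinuousLinearMap.comp_apply, ContinuousLinearMap.proj_apply]
  congr 1
  · ring
  · exact Finset.sum_congr rfl fun i _ => by ring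

lemma ipL_cont : Continuous (ipL (d := d)) := by
  unfold ipL
  have h1 : Continuous fun w : E d => starRingEnd ℂ w.1 :=
    Complex.continuous_conj.comp continuous_fst
  have h2 : ∀ i, Continuous fun w : E d => starRingEnd ℂ (w.2 i) := fun i =>
    Complex.continuous_conj.comp ((continuous_apply i).comp continuous_snd)
  exact (h1.smul continuous_const).add
    (continuous_finsetSum _ fun i _ => (h2 i).smul continuous_const)

/-- the triangle inequality -/
lemma ip_tri (z w : E d) : ‖ip z w‖ ≤ ‖z.1‖ * ‖w.1‖ + ∑ i, ‖z.2 i‖ * ‖w.2 i‖ := by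
  unfold ip
  refine (norm_add_le _ _).trans (add_le_add (le_of_eq ?_) ((norm_sum_le _ _).trans
    (le_of_eq (Finset.sum_congr rfl fun i _ => ?_))))
  · rw [norm_mul, RCLike.norm_conj]
  · rw [norm_mul, RCLike.norm_conj]

/-- Cauchy-Schwarz -/
lemma ip_le (z w : E d) : ‖ip z w‖ ≤ nm z * nm w := by
  unfold nm
  rw [← Real.sqrt_mul (N_nonneg z)]
  apply Real.le_sqrt_of_sq_le
  have h1 := ip_tri z w
  have h2 : ‖ip z w‖ ^ 2 ≤ (‖z.1‖ * ‖w.1‖ + ∑ i, ‖z.2 i‖ * ‖w.2 i‖) ^ 2 :=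
    pow_le_pow_left₀ (norm_nonneg _) h1 2
  refine h2.trans ?_
  have h3 := Finset.sum_mul_sq_le_sq_mul_sq Finset.univ (fun i => ‖z.2 i‖) (fun i => ‖w.2 i‖)
  unfold N
  have hS : 0 ≤ ∑ i, ‖z.2 i‖ * ‖w.2 i‖ := by positivity
  have hP : 0 ≤ ∑ i, ‖z.2 i‖ ^ 2 := by positivity
  have hQ : 0 ≤ ∑ i, ‖w.2 i‖ ^ 2 := by positivity
  generalize (∑ i, ‖z.2 i‖ * ‖w.2 i‖) = S at *
  generalize (∑ i, ‖z.2 i‖ ^ 2) = P at *
  generalize (∑ i, ‖w.2 i‖ ^ 2) = Q at *
  have ha := norm_nonneg z.1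
  have hb := norm_nonneg w.1
  generalize ‖z.1‖ = a at *
  generalize ‖w.1‖ = b at *
  have h4 : S ≤ Real.sqrt P * Real.sqrt Q := by
    rw [← Real.sqrt_mul hP]
    exact Real.le_sqrt_of_sq_le h3
  have h5 : (a * b + S) ^ 2 ≤ (a * b + Real.sqrt P * Real.sqrt Q) ^ 2 := by
    have : 0 ≤ a * b := mul_nonneg ha hb
    gcongr
  refine h5.trans ?_
  have hp := Real.sq_sqrt hP
  have hq := Real.sq_sqrt hQ
  nlinarith [sq_nonneg (a * Real.sqrt Q - b * Real.sqrt P)]

lemma comp_le {w : E d} (hw : w ∈ B d) : ‖w.1‖ ≤ 1 ∧ ∀ i, ‖w.2 i‖ ≤ 1 := by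
  have h1 : ‖w.1‖ ^ 2 + ∑ i, ‖w.2 i‖ ^ 2 < 1 := hw
  have h2 : 0 ≤ ∑ i, ‖w.2 i‖ ^ 2 := by positivity
  constructor
  · nlinarith [norm_nonneg w.1]
  · intro i
    have h3 : ‖w.2 i‖ ^ 2 ≤ ∑ i, ‖w.2 i‖ ^ 2 :=
      Finset.single_le_sum (f := fun i => ‖w.2 i‖ ^ 2) (fun j _ => by positivity)
        (Finset.mem_univ i)
    nlinarith [sq_nonneg ‖w.1‖, norm_nonneg (w.2 i)]

lemma ipL_norm {w : E d} (hw : w ∈ B d) : ‖ipL w‖ ≤ d + 1 := by
  refine ContinuousLinearMap.opNorm_le_bound _ (by positivity) fun z => ?_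
  rw [ipL_apply]
  refine (ip_tri z w).trans ?_
  obtain ⟨h1, h2⟩ := comp_le hw
  have h3 : ‖z.1‖ ≤ ‖z‖ := norm_fst_le z
  have h4 : ∀ i, ‖z.2 i‖ ≤ ‖z‖ := fun i => (norm_le_pi_norm z.2 i).trans (norm_snd_le z)
  have h5 : ‖z.1‖ * ‖w.1‖ ≤ ‖z‖ * 1 := mul_le_mul h3 h1 (norm_nonneg _) (norm_nonneg _)
  have h6 : ∑ i, ‖z.2 i‖ * ‖w.2 i‖ ≤ ∑ _i : Fin d, ‖z‖ * 1 :=
    Finset.sum_le_sum fun i _ => mul_le_mul (h4 i) (h2 i) (norm_nonneg _) (norm_nonneg _)
  rw [Finset.sum_const, Finset.card_univ, Fintype.card_fin, nsmul_eq_mul] at h6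
  linarith

lemma B_fin : volume (B d) < ∞ := by
  refine lt_of_le_of_lt (measure_mono (t := Metric.closedBall (0 : E d) 1) fun w hw => ?_)
    Metric.isBounded_closedBall.measure_lt_top
  rw [mem_closedBall_zero_iff, Prod.norm_def]
  exact max_le (comp_le hw).1 ((pi_norm_le_iff_of_nonneg zero_le_one).2 (comp_le hw).2)

theorem C5 (d : ℕ) : Pool.Agent.N290.RJ.C5 d := by
  intro γ M hγ hM z0 hz0
  have hM0 : 0 ≤ M := (norm_nonneg _).trans (hM z0 hz0)
  have hn0 : nm z0 < 1 := mem_B_nm.1 hz0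
  obtain ⟨r, hr⟩ : ∃ r : ℝ, r = (1 + nm z0) / 2 := ⟨_, rfl⟩
  have hr0 : nm z0 < r := by linarith
  have hr1 : r < 1 := by linarith
  have hrp : 0 ≤ r := (nm_nonneg z0).trans hr0.le
  have hnmc : Continuous (nm : E d → ℝ) := Real.continuous_sqrt.comp N_continuous
  have hs : {z : E d | nm z < r} ∈ 𝓝 z0 :=
    (isOpen_lt hnmc continuous_const).mem_nhds hr0
  have hlow : ∀ z ∈ {z : E d | nm z < r}, ∀ w ∈ B d, 1 - r ≤ ‖1 - ip z w‖ := by
    intro z hz w hw
    have h1 : ‖ip z w‖ ≤ r := by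
      refine (ip_le z w).trans ?_
      have h2 : nm z * nm w ≤ r * 1 :=
        mul_le_mul (le_of_lt hz) (mem_B_nm.1 hw).le (nm_nonneg _) hrp
      linarith
    have h3 := norm_sub_norm_le (1 : ℂ) (ip z w)
    rw [norm_one] at h3
    linarith
  have hfin : IsFiniteMeasure (volume.restrict (B d)) := ⟨by
    rw [Measure.restrict_apply_univ]
    exact B_fin⟩
  have hmem : ∀ᵐ w ∂(volume.restrict (B d)), w ∈ B d := ae_restrict_mem B_meas
  have hipc : ∀ z : E d, Continuous fun w => ip z w := by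
    intro z
    have h1 : (fun w => ip z w) = fun w => ipL w z := by
      funext w
      rw [ipL_apply]
    rw [h1]
    exact ipL_cont.clm_apply continuous_const
  have hmeas : ∀ (z : E d) (k : ℕ), AEStronglyMeasurable (fun w => γ w / (1 - ip z w) ^ k)
      (volume.restrict (B d)) := by
    intro z k
    have h1 : Measurable fun w => ((1 - ip z w) ^ k)⁻¹ :=
      ((continuous_const.sub (hipc z)).pow k).measurable.inv
    simp only [div_eq_mul_inv]
    exact hγ.mul h1.aestronglyMeasurable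
  have hbd : ∀ z ∈ {z : E d | nm z < r}, ∀ w ∈ B d, ∀ k : ℕ,
      ‖γ w / (1 - ip z w) ^ k‖ ≤ M / (1 - r) ^ k := by
    intro z hz w hw k
    rw [norm_div, norm_pow]
    have h1 := hlow z hz w hw
    have h2 := hM w hw
    have h3 : 0 < 1 - r := by linarith
    gcongr
  have key := hasFDerivAt_integral_of_dominated_of_fderiv_le (𝕜 := ℂ)
    (μ := volume.restrict (B d)) (F := fun z w => γ w / (1 - ip z w) ^ (d + 2))
    (F' := fun z w => (((d + 2 : ℕ) : ℂ) * (γ w / (1 - ip z w) ^ (d + 3))) • ipL w) (x₀ := z0)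
    (s := {z : E d | nm z < r})
    (bound := fun _ => ((d + 2 : ℕ) : ℝ) * (M / (1 - r) ^ (d + 3)) * (d + 1)) hs ?_ ?_ ?_ ?_ ?_ ?_
  · exact key.differentiableAt.differentiableWithinAt
  · exact Eventually.of_forall fun z => hmeas z (d + 2)
  · refine Integrable.of_bound (hmeas z0 (d + 2)) (M / (1 - r) ^ (d + 2)) ?_
    filter_upwards [hmem] with w hw
    exact hbd z0 hr0 w hw (d + 2)
  · exact ((hmeas z0 (d + 3)).const_mul _).smul ipL_cont.aestronglyMeasurable
  · filter_upwards [hmem] with w hw z hz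
    rw [norm_smul, norm_mul, Complex.norm_natCast]
    have h1 := hbd z hz w hw (d + 3)
    have h2 := ipL_norm hw
    have h4 : 0 ≤ M / (1 - r) ^ (d + 3) := by
      have : 0 < 1 - r := by linarith
      positivity
    gcongr
  · exact integrable_const _
  · filter_upwards [hmem] with w hw z hz
    have h1 : 1 - ip z w ≠ 0 := by
      intro h0
      have h2 := hlow z hz w hw
      rw [h0, norm_zero] at h2
      linarith
    have h2 : HasFDerivAt (fun z => 1 - ip z w) (-ipL w) z := by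
      have h3 : (fun z => 1 - ip z w) = fun z => 1 - ipL w z := by
        funext z
        rw [ipL_apply]
      rw [h3]
      exact (ipL w).hasFDerivAt.const_sub 1
    have h3 : HasDerivAt (fun t : ℂ => γ w / t ^ (d + 2))
        (-(((d + 2 : ℕ) : ℂ) * (γ w / (1 - ip z w) ^ (d + 3)))) (1 - ip z w) := by
      have h4 := ((hasDerivAt_pow (d + 2) (1 - ip z w)).inv (pow_ne_zero (d + 2) h1)).const_mul
        (γ w)
      have h5 : (fun t : ℂ => γ w / t ^ (d + 2)) = fun t : ℂ => γ w * (t ^ (d + 2))⁻¹ := by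
        funext t
        rw [div_eq_mul_inv]
      rw [h5]
      refine h4.congr_deriv ?_
      have e1 : (1 - ip z w) ^ (d + 2 - 1) = (1 - ip z w) ^ (d + 1) := rfl
      have e2 : (1 - ip z w) ^ (d + 2) = (1 - ip z w) ^ (d + 1) * (1 - ip z w) := pow_succ _ _
      have e3 : (1 - ip z w) ^ (d + 3) = (1 - ip z w) ^ (d + 1) * (1 - ip z w) * (1 - ip z w) := by
        rw [pow_succ, pow_succ]
      have e4 : (1 - ip z w) ^ (d + 1) ≠ 0 := pow_ne_zero _ h1
      rw [e1, e2, e3]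
      generalize (1 - ip z w) ^ (d + 1) = p at *
      field_simp
    have h4 := h3.comp_hasFDerivAt z h2
    refine h4.congr_fderiv ?_
    rw [smul_neg, neg_smul, neg_neg]

end Pool.Agent.N134.RJC5
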